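import Mathlib

/-!
Statements of the parts of project SC52 (constant-depth circuits for Set Cover). Every `S_x` is a
`Prop` to be proved in its own file.
-/

set_option autoImplicit false

namespace Pool.Agent.W952.SC

open Finset

/-- Counting the tuples of permutations with given values. -/
def S_cnt : Prop := ∀ (m r : ℕ),
  (∀ (T : Finset (Fin m)) (c : Fin r → Fin m → Fin m),
    (univ.filter (fun b : Fin r → Equiv.Perm (Fin m) => ∀ j ∈ T, ∀ x, b x j = c x j)).card ≤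
      ((m - T.card).factorial) ^ r) ∧
  ∀ (H : Finset (Fin m)) (V : Finset (Fin r → Fin m)),
    (univ.filter (fun a : Fin r → Equiv.Perm (Fin m) => H.image (fun j x => a x j) = V)).card ≤
      H.card ^ H.card * ((m - H.card).factorial) ^ r

/-- Two inequalities for factorials. -/
def S_fac : Prop := ∃ C : ℕ, ∀ m k : ℕ, C ≤ m → k ≤ m → ∀ ρ : ℝ, 0 < ρ →
  ρ ^ m = (m.factorial : ℝ) →
  (3 * m ≤ 5 * k → (k.factorial : ℝ) ≤ ρ ^ k * Real.exp (-(((m - k : ℕ) : ℝ) / 2))) ∧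
  (9 * m ≤ 50 * k → 5 * k ≤ 3 * m →
    (k.factorial : ℝ) ≤ 3 * m * ρ ^ k * (2 : ℝ) ^ (-(0.442 * (m : ℝ)))) ∧ ρ ≤ m ∧ 1 ≤ ρ

/-- The union bound for bad instances. -/
def S_bad : Prop := ∃ C : ℕ, ∀ m r : ℕ, C ≤ m → 2 * Real.log m ≤ r → ∀ ρ : ℝ, 0 < ρ →
  ρ ^ m = (m.factorial : ℝ) →
  ∑ T ∈ univ.filter (fun T : Finset (Fin m) => T.card < (2 * m + 4) / 5),
    (m : ℝ) ^ T.card * (((m - T.card).factorial : ℝ) ^ r *
      (1 / (8 * ρ ^ r) / 2) ^ (m - T.card)) ≤ 1 / 4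

/-- The factor of the star probability. -/
noncomputable def cc (ρ : ℝ) (r : ℕ) (N : ℝ) (h D : ℕ) : ℝ :=
  2 * (8 * ρ ^ r) * N * (12 * h * N) ^ D

/-- The depth of the decision trees. -/
def hh (m r : ℕ) : ℕ := m * r / 10000 + 1

/-- The base of the star probability. -/
noncomputable def NN (m r : ℕ) : ℝ := ((m : ℝ) * r) ^ 200000

/-- The gain. -/
noncomputable def dd (m r : ℕ) : ℝ := (2 : ℝ) ^ (-(0.4415 * ((m : ℝ) * r)))

/-- The parameters, first part. -/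
def S_par1 : Prop := ∃ C : ℕ, ∀ m r D : ℕ, C ≤ m → 1 ≤ r →
  (C : ℝ) * (D + 1) * Real.log (m * r) ≤ r →
  ∀ ρ : ℝ, 0 < ρ → ρ ^ m = (m.factorial : ℝ) →
    ∀ t : ℕ, (2 * m + 4) / 5 ≤ t → t < 2 * ((2 * m + 4) / 5) → t ≤ m →
      cc ρ r (NN m r) (hh m r) D ^ t * ((t : ℝ) ^ t * ((m - t).factorial : ℝ) ^ r) ≤
        (m.factorial : ℝ) ^ r * dd m r

/-- The parameters, second part. -/
def S_par2 : Prop := ∃ C : ℕ, ∀ m r D : ℕ, C ≤ m → 1 ≤ r →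
  (C : ℝ) * (D + 1) * Real.log (m * r) ≤ r →
  ∀ ρ : ℝ, 1 ≤ ρ → ρ ≤ m →
    ∀ S J : ℕ, (S : ℝ) ≤ (2 : ℝ) ^ (0.4405 * ((m : ℝ) * r)) → (J : ℝ) ≤ 2 * 2 ^ (m * r) →
      (S : ℝ) * 2 ^ m * (6 ^ hh m r * dd m r) ≤ 1 / 4 ∧
      ((S * (J + S + 1) : ℕ) : ℝ) ^ 2 * 2 ^ m *
        cc ρ r (NN m r) (hh m r) D ^ (2 * ((2 * m + 4) / 5)) *
        ((12 * (1 / NN m r)) ^ (hh m r + 1) + D * (1 / NN m r) ^ (hh m r + 1)) ≤ 1 / 4

/-- The subsets of `Fin n` with at most `r` elements. -/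
abbrev Small (r n : ℕ) : Type := {B : Finset (Fin n) // B.card ≤ r}

/-- The family of the sets `B` with `x B = true` contains at most `k` sets with union `Fin n`. -/
def HasCover {r n : ℕ} (k : ℕ) (x : Small r n → Bool) : Prop :=
  ∃ F : Finset (Small r n), F.card ≤ k ∧ (∀ B ∈ F, x B = true) ∧ ∀ u : Fin n, ∃ B ∈ F, u ∈ B.1

/-- The number of possible sets is small. -/
def S_card : Prop := ∀ A : ℕ, ∃ C : ℕ, ∀ m r : ℕ, C ≤ m → C ≤ r →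
  2 * ((2 : ℝ) ^ (0.44 * ((m : ℝ) * r)) * (Fintype.card (Small r (m * r)) : ℝ) ^ A) ≤
    (2 : ℝ) ^ (0.4405 * ((m : ℝ) * r))

/-- Set cover for families of transversals. -/
def S_emb : Prop := ∀ m r : ℕ, 1 ≤ m → 1 ≤ r →
  ∃ X : ((Fin r → Fin m) → Bool) → Small r (m * r) → Bool,
    (∀ B, (∀ w, X w B = false) ∨ ∃ s, ∀ w, X w B = w s) ∧
    ∀ w, HasCover m (X w) ↔ ∃ a : Fin r → Equiv.Perm (Fin m), ∀ j, w (fun x => a x j) = true

end Pool.Agent.W952.SC
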