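import Mathlib
import Pool.Agent.W951.AC.Core
import Pool.Agent.W951.AC.Uniq
import Pool.Agent.W952.B.Csp
import Pool.Agent.W952.SC.Stm

/-!
The lower bound for perfect matchings of transversals, with its parameters.
-/

set_option linter.unusedSectionVars false

namespace Pool.Agent.W952.SC

open Finset DomAC0 H568R2 H592R3 Pool.Agent.W951.AC

section Low
variable {m r : ℕ}

/-- the `j`-th transversal of the partition given by `a` -/
def tr (a : Fin r → Equiv.Perm (Fin m)) (j : Fin m) : Fin r → Fin m := fun x => a x j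

lemma tr_inj (hr : 1 ≤ r) (a : Fin r → Equiv.Perm (Fin m)) : Function.Injective (tr a) := by
  intro j j' h
  exact (a ⟨0, hr⟩).injective (congrFun h ⟨0, hr⟩)

/-- The family contains a partition into transversals. -/
def Mat (X : (Fin r → Fin m) → Bool) : Prop :=
  ∃ a : Fin r → Equiv.Perm (Fin m), ∀ j, X (tr a j) = true

/-- the prescribed values -/
def pre (a : Fin r → Equiv.Perm (Fin m)) (T : Finset (Fin m)) (g : {j // j ∈ T} → Fin m)
    (x : Fin r) (j : Fin m) : Fin m :=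
  if hj : j ∈ T then a x (g ⟨j, hj⟩) else j

open Classical in
/-- Unless a bad event occurs, there is a large coefficient. -/
lemma pt_bound (hr : 1 ≤ r) (a : Fin r → Equiv.Perm (Fin m)) {L : ℕ} (hL : 1 ≤ L)
    (f : ((Fin r → Fin m) → Bool) → Bool) (hf : ∀ X, f X = true ↔ Mat X)
    (X : (Fin r → Fin m) → Bool) :
    (1 : ℝ) ≤ (if ¬ Low (L - 1) (pf f (tr a) X) then (1 : ℝ) else 0) +
      ∑ T ∈ univ.filter (fun T : Finset (Fin m) => T.card < L),
        ∑ g : {j // j ∈ T} → Fin m,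
          ∑ b ∈ univ.filter (fun b : Fin r → Equiv.Perm (Fin m) =>
            ∀ j ∈ T, ∀ x, b x j = pre a T g x j),
            (if ∀ s ∈ (univ \ T).image (tr b), X s = true then (1 : ℝ) else 0) := by
  have hn0 : ∀ (T : Finset (Fin m)) (g : {j // j ∈ T} → Fin m),
      ∀ b ∈ univ.filter (fun b : Fin r → Equiv.Perm (Fin m) =>
            ∀ j ∈ T, ∀ x, b x j = pre a T g x j), (0 : ℝ) ≤
      (if ∀ s ∈ (univ \ T).image (tr b), X s = true then (1 : ℝ) else 0) := by
    intro T g b _; split_ifs <;> norm_num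
  have hn1 : ∀ (T : Finset (Fin m)), ∀ g ∈ (univ : Finset ({j // j ∈ T} → Fin m)), (0 : ℝ) ≤
      ∑ b ∈ univ.filter (fun b : Fin r → Equiv.Perm (Fin m) =>
            ∀ j ∈ T, ∀ x, b x j = pre a T g x j),
      (if ∀ s ∈ (univ \ T).image (tr b), X s = true then (1 : ℝ) else 0) :=
    fun T g _ => Finset.sum_nonneg (hn0 T g)
  have hn2 : ∀ T ∈ univ.filter (fun T : Finset (Fin m) => T.card < L), (0 : ℝ) ≤
      ∑ g : {j // j ∈ T} → Fin m, ∑ b ∈ univ.filter (fun b : Fin r → Equiv.Perm (Fin m) =>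
            ∀ j ∈ T, ∀ x, b x j = pre a T g x j),
      (if ∀ s ∈ (univ \ T).image (tr b), X s = true then (1 : ℝ) else 0) :=
    fun T _ => Finset.sum_nonneg (hn1 T)
  have hs := Finset.sum_nonneg hn2
  by_cases hlow : ¬ Low (L - 1) (pf f (tr a) X)
  · rw [if_pos hlow]
    linarith
  · rw [if_neg hlow]
    have hbad : ∃ V : Finset (Fin m), V.card < L ∧ Mat (plant (tr a) V X) := by
      by_contra hcon
      push Not at hcon
      apply hlow
      apply Pool.Agent.W952.B.not_low_of hL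
      · intro V hV
        unfold pf
        rw [if_neg]
        intro h
        exact hcon V hV ((hf _).1 h)
      · unfold pf
        rw [if_pos ((hf _).2 ⟨a, fun j => plant_iff.2 (Or.inl ⟨j, Finset.mem_univ _, rfl⟩)⟩)]
        exact one_ne_zero
    obtain ⟨V, hV, b, hb⟩ := hbad
    obtain ⟨T, hT⟩ : ∃ T : Finset (Fin m), T = univ.filter (fun j => ∃ j' ∈ V, tr a j' = tr b j) :=
      ⟨_, rfl⟩
    have hmT : ∀ j, j ∈ T ↔ ∃ j' ∈ V, tr a j' = tr b j := by
      intro j; rw [hT, Finset.mem_filter]; simp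
    have hTc : T.card < L := by
      refine lt_of_le_of_lt ?_ hV
      rw [← Finset.card_image_of_injective T (tr_inj hr b)]
      refine le_trans (Finset.card_le_card (t := V.image (tr a)) ?_) Finset.card_image_le
      intro s hs'
      obtain ⟨j, hj, rfl⟩ := Finset.mem_image.1 hs'
      obtain ⟨j', hj', h⟩ := (hmT j).1 hj
      exact Finset.mem_image.2 ⟨j', hj', h⟩
    have hch : ∀ j : {j // j ∈ T}, ∃ j' : Fin m, tr a j' = tr b j.1 := by
      intro j
      obtain ⟨j', _, h⟩ := (hmT j.1).1 j.2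
      exact ⟨j', h⟩
    choose g hg using hch
    have hbm : b ∈ univ.filter (fun b : Fin r → Equiv.Perm (Fin m) =>
            ∀ j ∈ T, ∀ x, b x j = pre a T g x j) := by
      rw [Finset.mem_filter]
      refine ⟨Finset.mem_univ _, fun j hj x => ?_⟩
      unfold pre
      rw [dif_pos hj]
      exact (congrFun (hg ⟨j, hj⟩) x).symm
    have h1 := Finset.single_le_sum hn2 (Finset.mem_filter.2 ⟨Finset.mem_univ T, hTc⟩)
    have h2 := Finset.single_le_sum (hn1 T) (Finset.mem_univ g)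
    have h3 := Finset.single_le_sum (hn0 T g) hbm
    rw [if_pos (by
      intro s hs'
      obtain ⟨j, hj, rfl⟩ := Finset.mem_image.1 hs'
      rw [Finset.mem_sdiff, hmT] at hj
      rcases plant_iff.1 (hb j) with ⟨j', hj', h⟩ | h
      · exact absurd ⟨j', hj', h⟩ hj.2
      · exact h)] at h3
    linarith

open Classical in
/-- The average over the planted partitions. -/
lemma avg_bound (hr : 1 ≤ r) (hcnt : S_cnt) {L : ℕ} (hL : 1 ≤ L)
    (f : ((Fin r → Fin m) → Bool) → Bool) (hf : ∀ X, f X = true ↔ Mat X)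
    {p : ℝ} (hp0 : 0 ≤ p) (hp1 : p ≤ 1)
    (hbad : ∑ T ∈ univ.filter (fun T : Finset (Fin m) => T.card < L),
      (m : ℝ) ^ T.card * (((m - T.card).factorial : ℝ) ^ r * p ^ (m - T.card)) ≤ 1 / 4) :
    3 / 4 * (m.factorial : ℝ) ^ r ≤
      ∑ a : Fin r → Equiv.Perm (Fin m), Ex (vp p) (fun X : (Fin r → Fin m) → Bool =>
        if ¬ Low (L - 1) (pf f (tr a) X) then (1 : ℝ) else 0) := by
  have hz : ∀ a : Fin r → Equiv.Perm (Fin m), (3 : ℝ) / 4 ≤
      Ex (vp p) (fun X : (Fin r → Fin m) → Bool =>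
        if ¬ Low (L - 1) (pf f (tr a) X) then (1 : ℝ) else 0) := by
    intro a
    have h1 := Ex_mono (vp_nonneg hp0 hp1) (pt_bound hr a hL f hf)
    rw [Ex_const (vp_sum p), Ex_add, Ex_sum] at h1
    have h2 : ∑ T ∈ univ.filter (fun T : Finset (Fin m) => T.card < L),
        Ex (vp p) (fun X : (Fin r → Fin m) → Bool => ∑ g : {j // j ∈ T} → Fin m,
          ∑ b ∈ univ.filter (fun b : Fin r → Equiv.Perm (Fin m) =>
            ∀ j ∈ T, ∀ x, b x j = pre a T g x j),
            (if ∀ s ∈ (univ \ T).image (tr b), X s = true then (1 : ℝ) else 0)) ≤ 1 / 4 := by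
      refine le_trans (Finset.sum_le_sum fun T _ => ?_) hbad
      rw [Ex_sum]
      have h3 : ∀ g : {j // j ∈ T} → Fin m, Ex (vp p) (fun X : (Fin r → Fin m) → Bool =>
          ∑ b ∈ univ.filter (fun b : Fin r → Equiv.Perm (Fin m) =>
            ∀ j ∈ T, ∀ x, b x j = pre a T g x j),
            (if ∀ s ∈ (univ \ T).image (tr b), X s = true then (1 : ℝ) else 0)) ≤
          ((m - T.card).factorial : ℝ) ^ r * p ^ (m - T.card) := by
        intro g
        rw [Ex_sum]
        have h4 : ∀ b ∈ univ.filter (fun b : Fin r → Equiv.Perm (Fin m) =>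
            ∀ j ∈ T, ∀ x, b x j = pre a T g x j), Ex (vp p) (fun X : (Fin r → Fin m) → Bool =>
            (if ∀ s ∈ (univ \ T).image (tr b), X s = true then (1 : ℝ) else 0)) =
              p ^ (m - T.card) := by
          intro b _
          rw [Ex_one, Finset.card_image_of_injective _ (tr_inj hr b),
            Finset.card_sdiff_of_subset (Finset.subset_univ T), Finset.card_univ,
            Fintype.card_fin]
        rw [Finset.sum_congr rfl h4, Finset.sum_const, nsmul_eq_mul]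
        apply mul_le_mul_of_nonneg_right _ (by positivity)
        have h5 := (hcnt m r).1 T (pre a T g)
        exact_mod_cast h5
      refine (Finset.sum_le_sum fun g _ => h3 g).trans ?_
      rw [Finset.sum_const, Finset.card_univ, Fintype.card_fun, nsmul_eq_mul, Fintype.card_fin,
        Fintype.card_coe]
      push_cast
      exact le_refl _
    linarith
  have h5 := Finset.card_nsmul_le_sum (univ : Finset (Fin r → Equiv.Perm (Fin m))) _ _
    (fun a _ => hz a)
  rw [Finset.card_univ, Fintype.card_fun, Fintype.card_perm, nsmul_eq_mul, Fintype.card_fin,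
    Fintype.card_fin] at h5
  push_cast at h5
  linarith

/-- The lower bound with its parameters. -/
theorem sc_lower (hr : 1 ≤ r) (hcnt : S_cnt) {J : Type} [Fintype J] {L S D h : ℕ} (hL : 2 ≤ L)
    (hh : 1 ≤ h) (Ci : Circuit J) (σ : ((Fin r → Fin m) → Bool) → (J → Bool))
    (hσ : ∀ j, Junta 1 (fun x => σ x j)) (hdec : ∀ X, Ci.eval (σ X) = true ↔ Mat X)
    (hdepth : Ci.depth ≤ D + 1) (hS : Ci.size ≤ S) {ρ N δ : ℝ} (hρ : 1 ≤ ρ) (hN : 36 ≤ N)
    (hδ : 0 < δ)
    (hbad : ∑ T ∈ univ.filter (fun T : Finset (Fin m) => T.card < L),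
      (m : ℝ) ^ T.card * (((m - T.card).factorial : ℝ) ^ r *
        (1 / (8 * ρ ^ r) / 2) ^ (m - T.card)) ≤ 1 / 4)
    (h2 : ∀ t : ℕ, L ≤ t → t < 2 * L → t ≤ m →
      cc ρ r N h D ^ t * ((t : ℝ) ^ t * ((m - t).factorial : ℝ) ^ r) ≤ (m.factorial : ℝ) ^ r * δ)
    (h3 : (S : ℝ) * 2 ^ m * (6 ^ h * δ) ≤ 1 / 4)
    (h4 : ((S * (Fintype.card J + S + 1) : ℕ) : ℝ) ^ 2 * 2 ^ m * cc ρ r N h D ^ (2 * L) *
      ((12 * (1 / N)) ^ (h + 1) + D * (1 / N) ^ (h + 1)) ≤ 1 / 4) : False := by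
  classical
  have hN0 : 0 < N := by linarith
  have hh0 : (1 : ℝ) ≤ h := by exact_mod_cast hh
  have hρr : 1 ≤ ρ ^ r := one_le_pow₀ hρ
  obtain ⟨Y, hY⟩ : ∃ Y : ℝ, Y = 8 * ρ ^ r := ⟨_, rfl⟩
  have hY1 : 8 ≤ Y := by rw [hY]; linarith
  obtain ⟨c, hc⟩ : ∃ c : ℝ, c = cc ρ r N h D := ⟨_, rfl⟩
  rw [← hc] at h2 h4
  have hc' : c = 2 * Y * N * (12 * h * N) ^ D := by rw [hc, hY]; rfl
  rw [← hY] at hbad
  have hy0 : (0 : ℝ) < 1 / Y := by positivity
  have hy1 : (1 : ℝ) / Y ≤ 1 := by rw [div_le_one (by linarith)]; linarith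
  have hb := avg_bound hr hcnt (by omega : 1 ≤ L) (fun x => Ci.eval (σ x)) hdec
    (p := 1 / Y / 2) (by positivity) (by linarith) hbad
  have hc1 : 1 ≤ c := by
    have e1 : (1 : ℝ) ≤ 12 * h * N := by nlinarith
    have e2 : (1 : ℝ) ≤ (12 * h * N) ^ D := one_le_pow₀ e1
    have e3 : (1 : ℝ) ≤ 2 * Y * N := by nlinarith
    rw [hc']
    nlinarith
  have hc0 : 0 < c := by linarith
  have hτ0 : 0 < 1 / (12 * (h : ℝ) * N) := by positivity
  have hτ1 : 1 / (12 * (h : ℝ) * N) ≤ 1 / 3 := by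
    apply one_div_le_one_div_of_le (by norm_num)
    nlinarith
  have hq1 : 1 / N ≤ 1 / 3 := one_div_le_one_div_of_le (by norm_num) (by linarith)
  have hcyq : 2 ≤ c * (1 / (Y : ℝ) * (1 / N * (1 / (12 * (h : ℝ) * N)) ^ D)) := by
    rw [hc', one_div_pow]
    have : (12 * (h : ℝ) * N) ^ D ≠ 0 := by positivity
    apply le_of_eq
    field_simp
  obtain ⟨Q, hQ⟩ : ∃ Q : ℝ, Q = (m.factorial : ℝ) ^ r * δ := ⟨_, rfl⟩
  have hQ0 : 0 ≤ Q := by rw [hQ]; positivity
  have h5 := core (A := Fin r → Equiv.Perm (Fin m)) Ci σ hσ tr (tr_inj hr) hh hdepth hS hL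
      hy0 hy1 (by positivity : 0 < 1 / N) hq1 hτ0 hτ1 hcyq hc1 hQ0 (by
        intro H hH1 hH2
        refine ⟨H.card ^ H.card * ((m - H.card).factorial) ^ r, fun V => ?_, ?_⟩
        · have h6 := (hcnt m r).2 H V
          convert h6 using 2
          ext a
          rw [Finset.mem_filter, Finset.mem_filter]
          exact Iff.rfl
        · have h6 : H.card ≤ m := by
            refine (Finset.card_le_univ H).trans ?_
            rw [Fintype.card_fin]
          rw [hQ]
          have h7 := h2 H.card hH1 hH2 h6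
          push_cast
          exact h7)
  have e12 : 12 * (h : ℝ) * (1 / (12 * (h : ℝ) * N)) = 1 / N := by field_simp
  rw [e12, Fintype.card_fun, Fintype.card_perm, Fintype.card_fin, Fintype.card_fin, hQ] at h5
  have hall := hb.trans h5
  push_cast at hall
  obtain ⟨F, hF⟩ : ∃ F : ℝ, F = (m.factorial : ℝ) ^ r := ⟨_, rfl⟩
  have hF0 : 0 < F := by rw [hF]; positivity
  rw [← hF] at hall
  obtain ⟨B1, hB1⟩ : ∃ B : ℝ, B = (S : ℝ) * 2 ^ m * (6 ^ h * δ) := ⟨_, rfl⟩
  obtain ⟨B2, hB2⟩ : ∃ B : ℝ, B = ((S * (Fintype.card J + S + 1) : ℕ) : ℝ) ^ 2 * 2 ^ m *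
    c ^ (2 * L) * ((12 * (1 / N)) ^ (h + 1) + D * (1 / N) ^ (h + 1)) := ⟨_, rfl⟩
  rw [← hB1] at h3
  rw [← hB2] at h4
  have hall2 : 3 / 4 * F ≤ F * B1 + F * B2 := by
    refine hall.trans (le_of_eq ?_)
    rw [hB1, hB2]
    push_cast
    ring
  nlinarith

end Low

end Pool.Agent.W952.SC
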