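import Mathlib
import Pool.Agent.W952.SC.Low
import Pool.Agent.W951.AC.Final
import Pool.Agent.W494.ToDom

/-!
Constant-depth circuits for Set Cover.
-/

set_option linter.unusedSectionVars false

namespace Pool.Agent.W952.SC

open Finset H568R2 H592R3 Pool.Agent.H596R2.D3

theorem main_of (hcnt : S_cnt) (hfac : S_fac) (hbad : S_bad) (hpar1 : S_par1) (hpar2 : S_par2)
    (hcard : S_card) (hemb : S_emb) (A : ℕ) :
    ∃ C : ℕ, ∀ m r d : ℕ, C ≤ m → 1 ≤ r → 1 ≤ d → (C : ℝ) * d * Real.log (m * r) ≤ r →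
      ∀ K : Circuit (Small r (m * r)) d, (∀ x, K.val x K.out ↔ HasCover m x) →
        (2 : ℝ) ^ (0.44 * ((m : ℝ) * r)) * (Fintype.card (Small r (m * r)) : ℝ) ^ A < K.size := by
  classical
  obtain ⟨C1, h1⟩ := hfac
  obtain ⟨C2, h2⟩ := hbad
  obtain ⟨C3, h3⟩ := hpar1
  obtain ⟨C4, h4⟩ := hpar2
  obtain ⟨C5, h5⟩ := hcard A
  obtain ⟨C, hC⟩ : ∃ C : ℕ, C = C1 + C2 + C3 + C4 + C5 + 10 := ⟨_, rfl⟩
  refine ⟨C, fun m r d hm hr hd hr2 K hK => ?_⟩
  by_contra hcon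
  push Not at hcon
  obtain ⟨D, rfl⟩ : ∃ D, d = D + 1 := ⟨d - 1, by omega⟩
  have hm10 : (10 : ℝ) ≤ m := by
    have : 10 ≤ m := by omega
    exact_mod_cast this
  have hrR : (1 : ℝ) ≤ r := by exact_mod_cast hr
  have hlog : 1 ≤ Real.log (m * r) := by
    rw [Real.le_log_iff_exp_le (by positivity)]
    have := Real.exp_one_lt_d9
    nlinarith
  have hlogm : Real.log m ≤ Real.log (m * r) :=
    Real.log_le_log (by linarith) (by nlinarith)
  have hD0 : (0 : ℝ) ≤ D := Nat.cast_nonneg D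
  have hCR : ∀ c : ℕ, c ≤ C → (c : ℝ) * (D + 1) * Real.log (m * r) ≤ r := by
    intro c hc
    refine le_trans ?_ hr2
    have hc' : (c : ℝ) ≤ C := by exact_mod_cast hc
    push_cast
    gcongr
  have hCr : ∀ c : ℕ, c ≤ C → c ≤ r := by
    intro c hc
    have e1 := hCR c hc
    have hc0 : (0 : ℝ) ≤ c := Nat.cast_nonneg c
    have e2 : (c : ℝ) * 1 * 1 ≤ c * (D + 1) * Real.log (m * r) := by
      apply mul_le_mul _ hlog (by norm_num) (by positivity)
      apply mul_le_mul_of_nonneg_left _ hc0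
      linarith
    have e3 : (c : ℝ) ≤ r := by linarith
    exact_mod_cast e3
  -- the number ρ
  obtain ⟨ρ, hρ⟩ : ∃ ρ : ℝ, ρ = (m.factorial : ℝ) ^ ((m : ℝ)⁻¹) := ⟨_, rfl⟩
  have hf0 : (0 : ℝ) < m.factorial := by exact_mod_cast m.factorial_pos
  have hρ0 : 0 < ρ := by rw [hρ]; exact Real.rpow_pos_of_pos hf0 _
  have hρm : ρ ^ m = (m.factorial : ℝ) := by
    rw [hρ]
    exact Real.rpow_inv_natCast_pow hf0.le (by omega)
  obtain ⟨-, -, hρle, hρge⟩ := h1 m m (by omega) le_rfl ρ hρ0 hρm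
  -- the embedding
  obtain ⟨X, hX, hsat⟩ := hemb m r (by omega) hr
  have hproj : IsProj X := by
    intro B
    rcases hX B with h | ⟨s, h⟩
    · exact Or.inl ⟨false, h⟩
    · exact Or.inr ⟨s, false, fun w => by rw [h w]; simp⟩
  obtain ⟨Ci, hsize, hdepth, heval⟩ := Pool.Agent.W494.to_dom K
  have hS : ((Ci.size : ℕ) : ℝ) ≤ (2 : ℝ) ^ (0.4405 * ((m : ℝ) * r)) := by
    calc ((Ci.size : ℕ) : ℝ) ≤ ((2 * K.size : ℕ) : ℝ) := by exact_mod_cast hsize
      _ = 2 * (K.size : ℝ) := by push_cast; ring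
      _ ≤ 2 * ((2 : ℝ) ^ (0.44 * ((m : ℝ) * r)) *
          (Fintype.card (Small r (m * r)) : ℝ) ^ A) := by linarith
      _ ≤ _ := h5 m r (by omega) (hCr C5 (by omega))
  have hJ : (Fintype.card (Small r (m * r) × Bool) : ℝ) ≤ 2 * 2 ^ (m * r) := by
    have e1 : Fintype.card (Small r (m * r)) ≤ 2 ^ (m * r) := by
      refine (Fintype.card_subtype_le _).trans ?_
      rw [Fintype.card_finset, Fintype.card_fin]
    rw [Fintype.card_prod, Fintype.card_bool]
    have e2 : ((Fintype.card (Small r (m * r)) * 2 : ℕ) : ℝ) ≤ ((2 ^ (m * r) * 2 : ℕ) : ℝ) := by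
      exact_mod_cast Nat.mul_le_mul_right 2 e1
    refine e2.trans (le_of_eq ?_)
    push_cast
    ring
  obtain ⟨g3, g4⟩ := h4 m r D (by omega) hr (hCR C4 (by omega)) ρ hρge hρle Ci.size
    (Fintype.card (Small r (m * r) × Bool)) hS hJ
  have hmr : (10 : ℝ) ≤ (m : ℝ) * r := by nlinarith
  refine sc_lower (m := m) (r := r) (D := D) (S := Ci.size) hr hcnt
    (by omega : 2 ≤ (2 * m + 4) / 5)
    (h := hh m r) (by unfold hh; omega) Ci (fun x p => (X x p.1 == p.2))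
    (fun p => Pool.Agent.W951.AC.proj_junta hproj p.1 p.2) ?_ hdepth le_rfl
    (ρ := ρ) (N := NN m r) (δ := dd m r) hρge ?_ ?_ (h2 m r (by omega) ?_ ρ hρ0 hρm)
    (h3 m r D (by omega) hr (hCR C3 (by omega)) ρ hρ0 hρm) g3 g4
  · intro x
    rw [heval, hK (X x), hsat x]
    exact Iff.rfl
  · unfold NN
    calc (36 : ℝ) ≤ 10 ^ 2 := by norm_num
      _ ≤ ((m : ℝ) * r) ^ 2 := by gcongr
      _ ≤ ((m : ℝ) * r) ^ 200000 := pow_le_pow_right₀ (by linarith) (by norm_num)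
  · unfold dd
    positivity
  · have e1 := hCR 2 (by omega)
    have e2 : (2 : ℝ) * 1 * Real.log m ≤ (2 : ℕ) * (D + 1) * Real.log (m * r) := by
      apply mul_le_mul _ hlogm (Real.log_nonneg (by linarith)) (by positivity)
      push_cast
      apply mul_le_mul_of_nonneg_left _ (by norm_num)
      linarith
    linarith

end Pool.Agent.W952.SC
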