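import Pool.Agent.W952.SC.Stm

set_option autoImplicit false

/-! SC52-bad: the union bound for bad instances. -/

namespace Pool.Agent.W952.SC

open Finset

namespace Aux_bad

theorem term (m r t k : ℕ) (ρ : ℝ) (hm : 2 ≤ m) (hρ : 0 < ρ) (hr : 2 * Real.log m ≤ r)
    (htk : t + k = m) (h5 : 3 * m ≤ 5 * k)
    (hfac : (k.factorial : ℝ) ≤ ρ ^ k * Real.exp (-((t : ℝ) / 2))) :
    (m : ℝ) ^ t * (((k.factorial : ℝ)) ^ r * (1 / (8 * ρ ^ r) / 2) ^ k) ≤ 1 / 4 / 2 ^ m := by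
  have hm0 : (0 : ℝ) < m := by
    have : 0 < m := by omega
    exact_mod_cast this
  have h1 : (k.factorial : ℝ) ^ r ≤ (ρ ^ k * Real.exp (-((t : ℝ) / 2))) ^ r :=
    pow_le_pow_left₀ (by positivity) hfac r
  have h2 : (0 : ℝ) ≤ (1 / (8 * ρ ^ r) / 2) ^ k := by positivity
  have h3 : (k.factorial : ℝ) ^ r * (1 / (8 * ρ ^ r) / 2) ^ k ≤
      (ρ ^ k * Real.exp (-((t : ℝ) / 2))) ^ r * (1 / (8 * ρ ^ r) / 2) ^ k :=
    mul_le_mul_of_nonneg_right h1 h2
  have h4 : (ρ ^ k * Real.exp (-((t : ℝ) / 2))) ^ r * (1 / (8 * ρ ^ r) / 2) ^ k =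
      Real.exp (-((t : ℝ) * r / 2)) * (1 / 16) ^ k := by
    have e1 : (1 / (8 * ρ ^ r) / 2) = (1 / 16) * (ρ ^ r)⁻¹ := by
      field_simp
      norm_num
    rw [e1, mul_pow, mul_pow, ← Real.exp_nat_mul, inv_pow]
    have e2 : (ρ ^ k) ^ r = (ρ ^ r) ^ k := by rw [← pow_mul, ← pow_mul, mul_comm]
    rw [e2]
    have e3 : (ρ ^ r) ^ k ≠ 0 := by positivity
    have e4 : (r : ℝ) * -((t : ℝ) / 2) = -((t : ℝ) * r / 2) := by ring
    rw [e4]
    field_simp
  have h5' : (m : ℝ) ^ t * Real.exp (-((t : ℝ) * r / 2)) ≤ 1 := by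
    have e1 : (m : ℝ) ^ t = Real.exp (t * Real.log m) := by
      rw [Real.exp_nat_mul, Real.exp_log hm0]
    rw [e1, ← Real.exp_add, Real.exp_le_one_iff]
    have ht : (0 : ℝ) ≤ t := Nat.cast_nonneg t
    nlinarith
  have h6 : ((1 : ℝ) / 16) ^ k ≤ 1 / 4 / 2 ^ m := by
    have e1 : 2 ^ (m + 2) ≤ 2 ^ (4 * k) := Nat.pow_le_pow_right (by norm_num) (by omega)
    have e2 : ((2 : ℝ)) ^ (m + 2) ≤ 2 ^ (4 * k) := by exact_mod_cast e1
    have e3 : (2 : ℝ) ^ (4 * k) = 16 ^ k := by rw [pow_mul]; norm_num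
    have e4 : (2 : ℝ) ^ (m + 2) = 4 * 2 ^ m := by rw [pow_add]; ring
    rw [e3, e4] at e2
    rw [div_pow, one_pow, div_div]
    exact one_div_le_one_div_of_le (by positivity) e2
  calc (m : ℝ) ^ t * (((k.factorial : ℝ)) ^ r * (1 / (8 * ρ ^ r) / 2) ^ k)
      ≤ (m : ℝ) ^ t * (Real.exp (-((t : ℝ) * r / 2)) * (1 / 16) ^ k) := by
        rw [← h4]
        exact mul_le_mul_of_nonneg_left h3 (by positivity)
    _ = ((m : ℝ) ^ t * Real.exp (-((t : ℝ) * r / 2))) * (1 / 16) ^ k := by ring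
    _ ≤ 1 * (1 / 16) ^ k := mul_le_mul_of_nonneg_right h5' (by positivity)
    _ ≤ 1 / 4 / 2 ^ m := by rw [one_mul]; exact h6

end Aux_bad

theorem p_bad : S_fac → S_bad := by
  rintro ⟨C, hC⟩
  refine ⟨max C 2, ?_⟩
  intro m r hm hr ρ hρ hρm
  have hmC : C ≤ m := (le_max_left _ _).trans hm
  have hm2 : 2 ≤ m := (le_max_right _ _).trans hm
  have hterm : ∀ T ∈ univ.filter (fun T : Finset (Fin m) => T.card < (2 * m + 4) / 5),
      (m : ℝ) ^ T.card * (((m - T.card).factorial : ℝ) ^ r *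
      (1 / (8 * ρ ^ r) / 2) ^ (m - T.card)) ≤ 1 / 4 / 2 ^ m := by
    intro T hT
    rw [Finset.mem_filter] at hT
    have hT2 := hT.2
    have h5 : 5 * T.card + 1 ≤ 2 * m := by omega
    have htk : T.card + (m - T.card) = m := by omega
    have h3 : 3 * m ≤ 5 * (m - T.card) := by omega
    have hf := (hC m (m - T.card) hmC (by omega) ρ hρ hρm).1 h3
    have e1 : m - (m - T.card) = T.card := by omega
    rw [e1] at hf
    exact Aux_bad.term m r T.card (m - T.card) ρ hm2 hρ hr htk h3 hf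
  calc ∑ T ∈ univ.filter (fun T : Finset (Fin m) => T.card < (2 * m + 4) / 5),
      (m : ℝ) ^ T.card * (((m - T.card).factorial : ℝ) ^ r *
        (1 / (8 * ρ ^ r) / 2) ^ (m - T.card))
      ≤ ∑ _T ∈ univ.filter (fun T : Finset (Fin m) => T.card < (2 * m + 4) / 5),
        ((1 : ℝ) / 4 / 2 ^ m) := Finset.sum_le_sum hterm
    _ = ((univ.filter (fun T : Finset (Fin m) => T.card < (2 * m + 4) / 5)).card : ℝ) *
        (1 / 4 / 2 ^ m) := by rw [Finset.sum_const, nsmul_eq_mul]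
    _ ≤ (2 : ℝ) ^ m * (1 / 4 / 2 ^ m) := by
        apply mul_le_mul_of_nonneg_right _ (by positivity)
        have h1 : (univ.filter (fun T : Finset (Fin m) => T.card < (2 * m + 4) / 5)).card ≤
            2 ^ m := by
          refine (Finset.card_filter_le _ _).trans ?_
          rw [Finset.card_univ, Fintype.card_finset, Fintype.card_fin]
        exact_mod_cast h1
    _ = 1 / 4 := by field_simp

end Pool.Agent.W952.SC
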