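import Pool.Agent.W952.SC.Stm

/-! The number of subsets with at most `r` elements of a set with `m r` elements. -/

set_option autoImplicit false

open Finset Filter Topology

namespace Pool.Agent.W952.SC

namespace Aux_card

theorem card_le (m r : ℕ) (hm : 1 ≤ m) :
    (Fintype.card (Small r (m * r)) : ℝ) ≤ (3 * (m : ℝ)) ^ r := by
  have hm0 : (0 : ℝ) < m := by exact_mod_cast hm
  have hm1 : (1 : ℝ) ≤ m := by exact_mod_cast hm
  have h1 : (Fintype.card (Small r (m * r)) : ℝ) * ((m : ℝ)⁻¹) ^ r ≤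
      ∑ B : Finset (Fin (m * r)), ((m : ℝ)⁻¹) ^ B.card := by
    have h2 : (Fintype.card (Small r (m * r)) : ℝ) * ((m : ℝ)⁻¹) ^ r =
        ∑ B ∈ Finset.univ.filter (fun B : Finset (Fin (m * r)) => B.card ≤ r),
          ((m : ℝ)⁻¹) ^ r := by
      rw [Finset.sum_const, nsmul_eq_mul]
      congr 2
      rw [Fintype.card_subtype]
    rw [h2]
    calc ∑ B ∈ Finset.univ.filter (fun B : Finset (Fin (m * r)) => B.card ≤ r),
          ((m : ℝ)⁻¹) ^ r
        ≤ ∑ B ∈ Finset.univ.filter (fun B : Finset (Fin (m * r)) => B.card ≤ r),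
          ((m : ℝ)⁻¹) ^ B.card := by
          refine Finset.sum_le_sum fun B hB => ?_
          rw [Finset.mem_filter] at hB
          exact pow_le_pow_of_le_one (by positivity) (inv_le_one_of_one_le₀ hm1) hB.2
      _ ≤ ∑ B : Finset (Fin (m * r)), ((m : ℝ)⁻¹) ^ B.card :=
          Finset.sum_le_sum_of_subset_of_nonneg (Finset.filter_subset _ _)
            (fun B _ _ => by positivity)
  have h3 : ∑ B : Finset (Fin (m * r)), ((m : ℝ)⁻¹) ^ B.card =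
      ((m : ℝ)⁻¹ + 1) ^ (m * r) := by
    have h4 := Fintype.sum_pow_mul_eq_add_pow (Fin (m * r)) ((m : ℝ)⁻¹) 1
    simpa using h4
  have h5 : ((m : ℝ)⁻¹ + 1) ^ m ≤ 3 := by
    have h6 : ((m : ℝ)⁻¹ + 1) ≤ Real.exp ((m : ℝ)⁻¹) := Real.add_one_le_exp _
    calc ((m : ℝ)⁻¹ + 1) ^ m ≤ (Real.exp ((m : ℝ)⁻¹)) ^ m :=
          pow_le_pow_left₀ (by positivity) h6 m
      _ = Real.exp 1 := by
          rw [← Real.exp_nat_mul, mul_inv_cancel₀ hm0.ne']
      _ ≤ 3 := by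
          have := Real.exp_one_lt_d9
          linarith
  have h7 : (Fintype.card (Small r (m * r)) : ℝ) * ((m : ℝ)⁻¹) ^ r ≤ 3 ^ r := by
    refine h1.trans ?_
    rw [h3, pow_mul]
    exact pow_le_pow_left₀ (by positivity) h5 r
  have h8 : (Fintype.card (Small r (m * r)) : ℝ) =
      ((Fintype.card (Small r (m * r)) : ℝ) * ((m : ℝ)⁻¹) ^ r) * (m : ℝ) ^ r := by
    rw [mul_assoc, ← mul_pow, inv_mul_cancel₀ hm0.ne', one_pow, mul_one]
  rw [h8, mul_pow]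
  exact mul_le_mul_of_nonneg_right h7 (by positivity)

end Aux_card

theorem p_card : S_card := by
  intro A
  set ρ : ℝ := (2 : ℝ) ^ (0.0005 : ℝ) with hρdef
  have hρ : 1 < ρ := Real.one_lt_rpow one_lt_two (by norm_num)
  have ht : Tendsto (fun n : ℕ => (n : ℝ) ^ A / ρ ^ n) atTop (𝓝 0) :=
    tendsto_pow_const_div_const_pow_of_one_lt A hρ
  have hev : ∀ᶠ m : ℕ in atTop, (m : ℝ) ^ A / ρ ^ m < 1 / (2 * 3 ^ A) :=
    ht.eventually_lt_const (by positivity)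
  obtain ⟨C0, hC0⟩ := eventually_atTop.1 hev
  refine ⟨max C0 1, fun m r hm hr => ?_⟩
  have hm1 : 1 ≤ m := (le_max_right _ _).trans hm
  have hr1 : 1 ≤ r := (le_max_right _ _).trans hr
  have hρm : 0 < ρ ^ m := by positivity
  have hbase : 2 * (3 * (m : ℝ)) ^ A ≤ ρ ^ m := by
    have h1 := hC0 m ((le_max_left _ _).trans hm)
    rw [div_lt_div_iff₀ hρm (by positivity)] at h1
    rw [mul_pow]
    nlinarith [h1.le]
  have hcard := Aux_card.card_le m r hm1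
  have hpow : (2 : ℝ) ^ (0.4405 * ((m : ℝ) * r)) =
      (2 : ℝ) ^ (0.44 * ((m : ℝ) * r)) * (ρ ^ m) ^ r := by
    have h2 : (ρ ^ m) ^ r = (2 : ℝ) ^ (0.0005 * ((m : ℝ) * r)) := by
      rw [← pow_mul, hρdef, ← Real.rpow_natCast, ← Real.rpow_mul (by norm_num)]
      push_cast
      ring_nf
    rw [h2, ← Real.rpow_add (by norm_num)]
    congr 1
    ring
  rw [hpow]
  have h3 : 2 * ((3 * (m : ℝ)) ^ r) ^ A ≤ (ρ ^ m) ^ r := by
    have h4 : (2 * (3 * (m : ℝ)) ^ A) ^ r ≤ (ρ ^ m) ^ r :=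
      pow_le_pow_left₀ (by positivity) hbase r
    have h5 : 2 * ((3 * (m : ℝ)) ^ r) ^ A ≤ (2 * (3 * (m : ℝ)) ^ A) ^ r := by
      rw [mul_pow 2, ← pow_mul, ← pow_mul, mul_comm r A]
      refine mul_le_mul_of_nonneg_right ?_ (by positivity)
      calc (2 : ℝ) = 2 ^ 1 := (pow_one _).symm
        _ ≤ 2 ^ r := pow_le_pow_right₀ one_le_two hr1
    exact h5.trans h4
  have h6 : (Fintype.card (Small r (m * r)) : ℝ) ^ A ≤ ((3 * (m : ℝ)) ^ r) ^ A :=
    pow_le_pow_left₀ (by positivity) hcard A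
  have h7 : (0 : ℝ) ≤ (2 : ℝ) ^ (0.44 * ((m : ℝ) * r)) := by positivity
  calc 2 * ((2 : ℝ) ^ (0.44 * ((m : ℝ) * r)) * (Fintype.card (Small r (m * r)) : ℝ) ^ A)
      = (2 : ℝ) ^ (0.44 * ((m : ℝ) * r)) * (2 * (Fintype.card (Small r (m * r)) : ℝ) ^ A) := by
        ring
    _ ≤ (2 : ℝ) ^ (0.44 * ((m : ℝ) * r)) * (2 * ((3 * (m : ℝ)) ^ r) ^ A) := by
        refine mul_le_mul_of_nonneg_left ?_ h7
        linarith
    _ ≤ (2 : ℝ) ^ (0.44 * ((m : ℝ) * r)) * (ρ ^ m) ^ r := mul_le_mul_of_nonneg_left h3 h7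

end Pool.Agent.W952.SC
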