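import Pool.Agent.W952.SC.Stm

set_option autoImplicit false

namespace Pool.Agent.W952.SC

open Finset

namespace Aux_cnt

theorem fixcard (m : ℕ) (T : Finset (Fin m)) :
    (univ.filter (fun f : Equiv.Perm (Fin m) => ∀ j ∈ T, f j = j)).card =
      (m - T.card).factorial := by
  classical
  have h := Fintype.card_congr (Equiv.Perm.subtypeEquivSubtypePerm (fun a : Fin m => a ∉ T))
  rw [Fintype.card_perm] at h
  have h2 : Fintype.card {a : Fin m // a ∉ T} = m - T.card := by
    rw [Fintype.card_subtype_compl]
    simp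
  rw [h2, Fintype.card_subtype] at h
  rw [h]
  congr 1
  ext f
  simp

theorem valcard (m : ℕ) (T : Finset (Fin m)) (c : Fin m → Fin m) :
    (univ.filter (fun f : Equiv.Perm (Fin m) => ∀ j ∈ T, f j = c j)).card ≤
      (m - T.card).factorial := by
  classical
  rcases Finset.eq_empty_or_nonempty
    (univ.filter (fun f : Equiv.Perm (Fin m) => ∀ j ∈ T, f j = c j)) with h | ⟨f0, hf0⟩
  · rw [h]; simp
  · rw [← fixcard]
    apply Finset.card_le_card_of_injOn (fun f => f0⁻¹ * f)
    · intro f hf
      simp only [coe_filter, mem_univ, true_and, Set.mem_setOf_eq, mem_filter] at hf hf0 ⊢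
      intro j hj
      rw [Equiv.Perm.mul_apply, hf j hj, ← hf0 j hj]; simp
    · intro f _ g _ hfg
      exact mul_left_cancel hfg

theorem part1 (m r : ℕ) (T : Finset (Fin m)) (c : Fin r → Fin m → Fin m) :
    (univ.filter (fun b : Fin r → Equiv.Perm (Fin m) => ∀ j ∈ T, ∀ x, b x j = c x j)).card ≤
      ((m - T.card).factorial) ^ r := by
  classical
  have h1 : univ.filter (fun b : Fin r → Equiv.Perm (Fin m) => ∀ j ∈ T, ∀ x, b x j = c x j) ⊆
      Fintype.piFinset (fun x => univ.filter (fun f : Equiv.Perm (Fin m) =>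
        ∀ j ∈ T, f j = c x j)) := by
    intro b hb
    simp only [mem_filter, mem_univ, true_and, Fintype.mem_piFinset] at hb ⊢
    exact fun x j hj => hb j hj x
  refine (Finset.card_le_card h1).trans ?_
  rw [Fintype.card_piFinset]
  refine (Finset.prod_le_prod' (fun x _ => valcard m T (c x))).trans ?_
  simp

end Aux_cnt

open Aux_cnt in
theorem p_cnt : S_cnt := by
  classical
  intro m r
  refine ⟨fun T c => by convert part1 m r T c, fun H V => ?_⟩
  rcases Finset.eq_empty_or_nonempty
    (univ.filter (fun a : Fin r → Equiv.Perm (Fin m) => H.image (fun j x => a x j) = V))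
    with h | ⟨a0, ha0⟩
  · rw [h]; simp
  · simp only [mem_filter, mem_univ, true_and] at ha0
    have h1 : univ.filter (fun a : Fin r → Equiv.Perm (Fin m) => H.image (fun j x => a x j) = V) ⊆
        (univ : Finset (H → H)).biUnion (fun π => univ.filter
          (fun b : Fin r → Equiv.Perm (Fin m) => ∀ j ∈ H, ∀ x, b x j =
            (fun (x : Fin r) (j : Fin m) => if h : j ∈ H then a0 x (π ⟨j, h⟩ : H) else j) x j)) := by
      intro a ha
      simp only [mem_filter, mem_univ, true_and, mem_biUnion] at ha ⊢
      have h2 : ∀ j : H, ∃ j' : H, (fun x => a0 x (j' : Fin m)) = fun x => a x (j : Fin m) := by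
        intro j
        have h3 : (fun x => a x (j : Fin m)) ∈ H.image (fun j x => a x j) :=
          mem_image_of_mem _ j.2
        rw [ha, ← ha0, mem_image] at h3
        obtain ⟨j', hj', h4⟩ := h3
        exact ⟨⟨j', hj'⟩, h4⟩
      choose π hπ using h2
      refine ⟨π, fun j hj x => ?_⟩
      rw [dif_pos hj]
      exact (congrFun (hπ ⟨j, hj⟩) x).symm
    refine (Finset.card_le_card h1).trans (Finset.card_biUnion_le.trans ?_)
    refine (Finset.sum_le_sum (fun π _ => part1 m r H _)).trans ?_
    simp

end Pool.Agent.W952.SC
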