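import Pool.Agent.W952.SC.Stm

/-!
# Project SC52: families of transversals (part emb, by helper215)
-/

set_option autoImplicit false

namespace Pool.Agent.W952.SC

open Finset

namespace Aux_emb

variable {m r : ℕ}

/-- the graph of `s` as a subset of `Fin (m * r)` -/
def gr (e : Fin r × Fin m ≃ Fin (m * r)) (s : Fin r → Fin m) : Small r (m * r) :=
  ⟨univ.image (fun x => e (x, s x)), by
    refine card_image_le.trans ?_
    rw [card_univ, Fintype.card_fin]⟩

lemma mem_gr (e : Fin r × Fin m ≃ Fin (m * r)) (s : Fin r → Fin m) (x : Fin r) (i : Fin m) :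
    e (x, i) ∈ (gr e s).1 ↔ s x = i := by
  unfold gr
  rw [mem_image]
  constructor
  · rintro ⟨x', -, h⟩
    have h1 := e.injective h
    rw [Prod.mk.injEq] at h1
    obtain ⟨rfl, h2⟩ := h1
    exact h2
  · intro h
    exact ⟨x, mem_univ _, by rw [h]⟩

lemma gr_inj (e : Fin r × Fin m ≃ Fin (m * r)) {s s' : Fin r → Fin m} (h : gr e s = gr e s') :
    s = s' := by
  funext x
  have h1 : e (x, s x) ∈ (gr e s).1 := (mem_gr e s x _).2 rfl
  rw [h, mem_gr] at h1
  exact h1.symm

end Aux_emb

open Aux_emb

theorem p_emb : S_emb := by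
  classical
  intro m r hm hr
  have e : Fin r × Fin m ≃ Fin (m * r) := Fintype.equivOfCardEq (by
    rw [Fintype.card_prod, Fintype.card_fin, Fintype.card_fin, Fintype.card_fin, mul_comm])
  refine ⟨fun w B => decide (∃ s, B = gr e s ∧ w s = true), ?_, ?_⟩
  · intro B
    by_cases h : ∃ s, B = gr e s
    · right
      obtain ⟨s, rfl⟩ := h
      refine ⟨s, fun w => ?_⟩
      by_cases hw : w s = true
      · rw [hw, decide_eq_true_iff]
        exact ⟨s, rfl, hw⟩
      · rw [Bool.not_eq_true] at hw
        rw [hw, decide_eq_false_iff_not]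
        rintro ⟨s', h1, h2⟩
        rw [← gr_inj e h1, hw] at h2
        exact Bool.false_ne_true h2
    · left
      intro w
      rw [decide_eq_false_iff_not]
      rintro ⟨s, h1, -⟩
      exact h ⟨s, h1⟩
  · intro w
    constructor
    · rintro ⟨F, hF, hX, hu⟩
      have hpos : 0 < m * r := Nat.mul_pos (by omega) (by omega)
      obtain ⟨B0, hB0, -⟩ := hu ⟨0, hpos⟩
      -- a surjection
      have hsur : ∃ g : Fin m → F, Function.Surjective g := by
        have hne : Nonempty F := ⟨⟨B0, hB0⟩⟩
        have hcard : Fintype.card F ≤ Fintype.card (Fin m) := by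
          rw [Fintype.card_coe, Fintype.card_fin]; exact hF
        obtain ⟨emb⟩ := Function.Embedding.nonempty_of_card_le hcard
        exact ⟨Function.invFun emb, Function.invFun_surjective emb.injective⟩
      obtain ⟨g, hg⟩ := hsur
      have hs : ∀ j, ∃ s, (g j).1 = gr e s ∧ w s = true := fun j => by
        have := hX (g j).1 (g j).2
        exact decide_eq_true_iff.1 this
      choose s hs1 hs2 using hs
      have hbij : ∀ x, Function.Bijective (fun j => s j x) := by
        intro x
        rw [← Finite.surjective_iff_bijective]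
        intro i
        obtain ⟨B, hB, hB'⟩ := hu (e (x, i))
        obtain ⟨j, hj⟩ := hg ⟨B, hB⟩
        refine ⟨j, ?_⟩
        have h1 : B = gr e (s j) := by rw [← hs1 j, hj]
        rw [h1, mem_gr] at hB'
        exact hB'
      refine ⟨fun x => Equiv.ofBijective _ (hbij x), fun j => ?_⟩
      exact hs2 j
    · rintro ⟨a, ha⟩
      refine ⟨univ.image (fun j => gr e (fun x => a x j)), ?_, ?_, ?_⟩
      · refine card_image_le.trans ?_
        rw [card_univ, Fintype.card_fin]
      · intro B hB
        rw [mem_image] at hB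
        obtain ⟨j, -, rfl⟩ := hB
        rw [decide_eq_true_iff]
        exact ⟨_, rfl, ha j⟩
      · intro u
        obtain ⟨⟨x, i⟩, rfl⟩ := e.surjective u
        refine ⟨gr e (fun x' => a x' ((a x).symm i)), mem_image.2 ⟨_, mem_univ _, rfl⟩, ?_⟩
        rw [mem_gr]
        exact Equiv.apply_symm_apply _ _

end Pool.Agent.W952.SC
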