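import Pool.Agent.W952.SC.Stm

set_option autoImplicit false
set_option linter.all false

namespace Pool.Agent.W952.SC

open Finset

namespace Aux_fac

/-- upper bound for the factorial -/
theorem fac_upper (k : ℕ) (hk : 1 ≤ k) :
    (k.factorial : ℝ) ≤ Real.exp 1 * k * ((k : ℝ) / Real.exp 1) ^ k := by
  have h := Stirling.stirlingSeq'_antitone (Nat.zero_le (k - 1))
  simp only [Function.comp_apply, Nat.succ_eq_add_one, zero_add] at h
  rw [Nat.sub_add_cancel hk, Stirling.stirlingSeq_one] at h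
  unfold Stirling.stirlingSeq at h
  have hk0 : (0 : ℝ) < k := by exact_mod_cast hk
  have hpos : 0 < Real.sqrt (2 * (k : ℝ)) * ((k : ℝ) / Real.exp 1) ^ k := by positivity
  rw [div_le_iff₀ hpos] at h
  refine h.trans ?_
  have hs : Real.sqrt (2 * (k : ℝ)) = Real.sqrt 2 * Real.sqrt k := Real.sqrt_mul (by norm_num) _
  rw [hs]
  have h2 : Real.sqrt 2 ≠ 0 := (Real.sqrt_pos.2 (by norm_num)).ne'
  have h3 : Real.exp 1 / Real.sqrt 2 * (Real.sqrt 2 * Real.sqrt k * ((k : ℝ) / Real.exp 1) ^ k) =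
      Real.exp 1 * Real.sqrt k * ((k : ℝ) / Real.exp 1) ^ k := by
    field_simp
  rw [h3]
  have h4 : Real.sqrt k ≤ k := by
    rw [Real.sqrt_le_left hk0.le]
    have : (1 : ℝ) ≤ k := by exact_mod_cast hk
    nlinarith
  gcongr

theorem rho_lower (m : ℕ) (hm : 1 ≤ m) (ρ : ℝ) (hρ : 0 < ρ) (h : ρ ^ m = (m.factorial : ℝ)) :
    (m : ℝ) / Real.exp 1 ≤ ρ := by
  have h1 := Real.pow_div_factorial_le_exp (m : ℝ) (by positivity) m
  have hf : (0 : ℝ) < m.factorial := by exact_mod_cast Nat.factorial_pos m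
  rw [div_le_iff₀ hf] at h1
  have h2 : ((m : ℝ) / Real.exp 1) ^ m ≤ ρ ^ m := by
    rw [h, div_pow, div_le_iff₀ (by positivity), ← Real.exp_nat_mul, mul_one]
    linarith
  exact (pow_le_pow_iff_left₀ (by positivity) hρ.le (by omega)).1 h2

theorem rho_upper (m : ℕ) (hm : 1 ≤ m) (ρ : ℝ) (hρ : 0 < ρ) (h : ρ ^ m = (m.factorial : ℝ)) :
    ρ ≤ m := by
  have h2 : ρ ^ m ≤ (m : ℝ) ^ m := by
    rw [h]
    exact_mod_cast Nat.factorial_le_pow m
  exact (pow_le_pow_iff_left₀ hρ.le (by positivity) (by omega)).1 h2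

theorem rho_one (m : ℕ) (hm : 1 ≤ m) (ρ : ℝ) (hρ : 0 < ρ) (h : ρ ^ m = (m.factorial : ℝ)) :
    1 ≤ ρ := by
  have h2 : (1 : ℝ) ^ m ≤ ρ ^ m := by
    rw [h, one_pow]
    exact_mod_cast Nat.factorial_pos m
  exact (pow_le_pow_iff_left₀ (by norm_num) hρ.le (by omega)).1 h2

theorem end1 : (0.18 : ℝ) * Real.log 0.18 ≤ -(0.442 * Real.log 2) := by
  have h : Real.log ((0.18 : ℝ) ^ 90) ≤ Real.log ((2 : ℝ) ^ 221)⁻¹ := by
    apply Real.log_le_log (by positivity)
    rw [le_inv_comm₀ (by positivity) (by positivity)]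
    norm_num
  rw [Real.log_pow, Real.log_inv, Real.log_pow] at h
  push_cast at h
  linarith

theorem end2 : (0.6 : ℝ) * Real.log 0.6 ≤ -(0.442 * Real.log 2) := by
  have h : Real.log ((0.6 : ℝ) ^ 300) ≤ Real.log ((2 : ℝ) ^ 221)⁻¹ := by
    apply Real.log_le_log (by positivity)
    have e1 : (0.6 : ℝ) ^ 300 = (3 ^ 150) ^ 2 / (5 ^ 150) ^ 2 := by
      rw [← div_pow, ← div_pow, ← pow_mul]
      norm_num
    rw [e1, ← one_div, div_le_div_iff₀ (by positivity) (by positivity), one_mul]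
    have e2 : ((3 : ℕ) ^ 150) ^ 2 * 2 ^ 221 ≤ ((5 : ℕ) ^ 150) ^ 2 := by norm_num
    exact_mod_cast e2
  rw [Real.log_pow, Real.log_inv, Real.log_pow] at h
  push_cast at h
  linarith

theorem mid (u : ℝ) (h1 : 0.18 ≤ u) (h2 : u ≤ 0.6) : u * Real.log u ≤ -(0.442 * Real.log 2) := by
  have hc := Real.convexOn_mul_log
  have h := hc.le_max_of_mem_Icc (x := (0.18 : ℝ)) (y := 0.6) (z := u) (by simp; norm_num) (by simp; norm_num) ⟨h1, h2⟩
  exact h.trans (max_le end1 end2)

theorem log_small (m : ℕ) (hm : 100 ≤ m) : 1 + Real.log m ≤ (m : ℝ) / 10 := by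
  have hm' : (100 : ℝ) ≤ m := by exact_mod_cast hm
  have h1 : Real.log ((m : ℝ) / 100) ≤ (m : ℝ) / 100 - 1 := Real.log_le_sub_one_of_pos (by positivity)
  rw [Real.log_div (by positivity) (by norm_num)] at h1
  have h2 : Real.log 100 ≤ 5 := by
    rw [Real.log_le_iff_le_exp (by norm_num)]
    have h3 : Real.exp 5 = (Real.exp 1) ^ 5 := by
      rw [← Real.exp_nat_mul]
      norm_num
    rw [h3]
    have h4 : (2.7 : ℝ) ≤ Real.exp 1 := by
      have := Real.exp_one_gt_d9
      linarith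
    calc (100 : ℝ) ≤ 2.7 ^ 5 := by norm_num
      _ ≤ (Real.exp 1) ^ 5 := pow_le_pow_left₀ (by norm_num) h4 5
  linarith

end Aux_fac

open Aux_fac in
theorem p_fac : S_fac := by
  refine ⟨100, ?_⟩
  intro m k hm hkm ρ hρ hρm
  have hm1 : 1 ≤ m := by omega
  have hm0 : (0 : ℝ) < m := by exact_mod_cast hm1
  have hlow := rho_lower m hm1 ρ hρ hρm
  refine ⟨?_, ?_, rho_upper m hm1 ρ hρ hρm, rho_one m hm1 ρ hρ hρm⟩
  · intro hk
    have hk1 : 1 ≤ k := by omega
    have hk0 : (0 : ℝ) < k := by exact_mod_cast hk1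
    obtain ⟨d, hd⟩ : ∃ d, m - k = d := ⟨_, rfl⟩
    have hmk : m = k + d := by omega
    rw [hd]
    -- the bound for the small factor
    have hsmall : Real.exp 1 * k * Real.exp (-(k : ℝ)) ≤ Real.exp (-((m : ℝ) / 2)) := by
      have e1 : Real.exp 1 * k * Real.exp (-(k : ℝ)) = Real.exp (1 + Real.log k + (-(k : ℝ))) := by
        rw [Real.exp_add, Real.exp_add, Real.exp_log hk0]
      rw [e1]
      apply Real.exp_le_exp.2
      have e2 := log_small m hm
      have e3 : Real.log k ≤ Real.log m := Real.log_le_log hk0 (by exact_mod_cast hkm)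
      have e4 : (3 : ℝ) * m ≤ 5 * k := by exact_mod_cast hk
      linarith
    have hfu := fac_upper k hk1
    have hfac : (k.factorial : ℝ) ≤ (k : ℝ) ^ k * (Real.exp 1 * k * Real.exp (-(k : ℝ))) := by
      refine hfu.trans (le_of_eq ?_)
      rw [div_pow, ← Real.exp_nat_mul, mul_one, Real.exp_neg]
      field_simp
    have hprod : (k.factorial : ℝ) * (k : ℝ) ^ d ≤ ρ ^ m := by
      rw [hρm]
      have := Nat.factorial_mul_pow_sub_le_factorial hkm
      rw [hd] at this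
      exact_mod_cast this
    have hkf : (0 : ℝ) < k.factorial := by exact_mod_cast Nat.factorial_pos k
    have hfin : (k.factorial : ℝ) ^ m ≤ (ρ ^ k * Real.exp (-((d : ℝ) / 2))) ^ m := by
      calc (k.factorial : ℝ) ^ m = (k.factorial : ℝ) ^ k * (k.factorial : ℝ) ^ d := by
            rw [hmk, pow_add]
        _ ≤ (k.factorial : ℝ) ^ k * ((k : ℝ) ^ k * (Real.exp 1 * k * Real.exp (-(k : ℝ)))) ^ d := by
            gcongr
        _ ≤ (k.factorial : ℝ) ^ k * ((k : ℝ) ^ k * Real.exp (-((m : ℝ) / 2))) ^ d := by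
            gcongr
        _ = ((k.factorial : ℝ) * (k : ℝ) ^ d) ^ k * (Real.exp (-((m : ℝ) / 2))) ^ d := by
            rw [mul_pow, mul_pow, ← pow_mul, ← pow_mul, mul_comm k d]
            ring
        _ ≤ (ρ ^ m) ^ k * (Real.exp (-((m : ℝ) / 2))) ^ d := by
            gcongr
        _ = (ρ ^ k * Real.exp (-((d : ℝ) / 2))) ^ m := by
            rw [mul_pow, ← pow_mul, ← pow_mul, mul_comm m k, ← Real.exp_nat_mul, ← Real.exp_nat_mul]
            congr 2
            ring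
    exact (pow_le_pow_iff_left₀ hkf.le (by positivity) (by omega)).1 hfin
  · intro hk1 hk2
    have hk3 : 1 ≤ k := by omega
    have hk0 : (0 : ℝ) < k := by exact_mod_cast hk3
    have hfu := fac_upper k hk3
    set u : ℝ := (k : ℝ) / m with hu
    have hu1 : 0.18 ≤ u := by
      rw [hu, le_div_iff₀ hm0]
      have : (9 : ℝ) * m ≤ 50 * k := by exact_mod_cast hk1
      linarith
    have hu2 : u ≤ 0.6 := by
      rw [hu, div_le_iff₀ hm0]
      have : (5 : ℝ) * k ≤ 3 * m := by exact_mod_cast hk2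
      linarith
    have hu0 : 0 < u := by linarith
    have hpow : u ^ k ≤ (2 : ℝ) ^ (-(0.442 * (m : ℝ))) := by
      rw [← Real.exp_log (pow_pos hu0 k), Real.log_pow, Real.rpow_def_of_pos (by norm_num)]
      apply Real.exp_le_exp.2
      have hkm' : (k : ℝ) = m * u := by
        rw [hu]
        field_simp
      have := mid u hu1 hu2
      rw [hkm']
      nlinarith
    have e1 : Real.exp 1 ≤ 3 := by
      have := Real.exp_one_lt_d9
      linarith
    have e2 : (k : ℝ) ≤ m := by exact_mod_cast hkm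
    calc (k.factorial : ℝ) ≤ Real.exp 1 * k * ((k : ℝ) / Real.exp 1) ^ k := hfu
      _ = Real.exp 1 * k * (u ^ k * ((m : ℝ) / Real.exp 1) ^ k) := by
          rw [← mul_pow, hu]
          congr 2
          field_simp
      _ ≤ 3 * m * ((2 : ℝ) ^ (-(0.442 * (m : ℝ))) * ρ ^ k) := by gcongr
      _ = 3 * m * ρ ^ k * (2 : ℝ) ^ (-(0.442 * (m : ℝ))) := by ring

end Pool.Agent.W952.SC
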