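import Pool.Agent.W952.SC.Stm

/-! Project SC52, part par1: the main inequality for the parameters. -/

set_option autoImplicit false

namespace Pool.Agent.W952.SC

namespace Aux_par1

lemma log3m (m : ℝ) (hm : (10 : ℝ) ^ 10 ≤ m) : Real.log (3 * m) ≤ 0.0001 * m := by
  have h0 : (0 : ℝ) < 3 * m := by linarith
  have h1 : Real.log (Real.sqrt (3 * m)) ≤ Real.sqrt (3 * m) - 1 :=
    Real.log_le_sub_one_of_pos (Real.sqrt_pos.mpr h0)
  rw [Real.log_sqrt h0.le] at h1
  have h2 : Real.sqrt (3 * m) ≤ 0.00005 * m := by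
    rw [Real.sqrt_le_left (by linarith)]
    nlinarith
  linarith

/-- the base of the power `t` is small -/
lemma baseX (m r D t : ℕ) (hm : 10 ^ 10 ≤ m) (hr : 1 ≤ r) (ht : t ≤ m) :
    16 * NN m r * (12 * (hh m r : ℝ) * NN m r) ^ D * (t : ℝ) ≤
      Real.exp (200002 * ((D : ℝ) + 1) * Real.log ((m : ℝ) * r)) := by
  have hm' : (10 : ℝ) ^ 10 ≤ m := by exact_mod_cast hm
  have hr' : (1 : ℝ) ≤ r := by exact_mod_cast hr
  have ht' : (t : ℝ) ≤ m := by exact_mod_cast ht
  have hmn : (m : ℝ) ≤ (m : ℝ) * r := by nlinarith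
  set n : ℝ := (m : ℝ) * r with hn
  have hn0 : 0 < n := by linarith
  have hL : 0 ≤ Real.log n := Real.log_nonneg (by linarith)
  have hexp : Real.exp (Real.log n) = n := Real.exp_log hn0
  have hN : NN m r = Real.exp (200000 * Real.log n) := by
    have h1 : Real.exp (((200000 : ℕ) : ℝ) * Real.log n) = Real.exp (Real.log n) ^ 200000 :=
      Real.exp_nat_mul _ _
    rw [hexp] at h1
    rw [NN, ← hn, ← h1]
    norm_num
  have hh1 : (12 : ℝ) * (hh m r : ℝ) ≤ n := by
    have h1 : ((m * r / 10000 : ℕ) : ℝ) ≤ ((m * r : ℕ) : ℝ) / ((10000 : ℕ) : ℝ) :=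
      Nat.cast_div_le
    have h2 : (hh m r : ℝ) = ((m * r / 10000 : ℕ) : ℝ) + 1 := by
      rw [hh]; push_cast; ring
    rw [h2]
    push_cast at h1
    rw [← hn] at h1
    linarith
  have hNpos : 0 < NN m r := by rw [hN]; exact Real.exp_pos _
  have h3 : 12 * (hh m r : ℝ) * NN m r ≤ Real.exp (200001 * Real.log n) := by
    calc 12 * (hh m r : ℝ) * NN m r ≤ n * NN m r :=
          mul_le_mul_of_nonneg_right hh1 hNpos.le
      _ = Real.exp (Real.log n) * Real.exp (200000 * Real.log n) := by rw [hexp, hN]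
      _ = Real.exp (200001 * Real.log n) := by
          rw [← Real.exp_add]
          congr 1
          ring
  have h4 : (12 * (hh m r : ℝ) * NN m r) ^ D ≤ Real.exp ((D : ℝ) * (200001 * Real.log n)) := by
    rw [Real.exp_nat_mul]
    exact pow_le_pow_left₀ (by positivity) h3 D
  have h5 : 16 * (t : ℝ) ≤ Real.exp (2 * Real.log n) := by
    have h6 : Real.exp (2 * Real.log n) = n * n := by
      rw [two_mul, Real.exp_add, hexp]
    rw [h6]
    nlinarith
  have h7 : 16 * NN m r * (12 * (hh m r : ℝ) * NN m r) ^ D * (t : ℝ) =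
      (16 * (t : ℝ)) * (NN m r * (12 * (hh m r : ℝ) * NN m r) ^ D) := by ring
  rw [h7]
  calc (16 * (t : ℝ)) * (NN m r * (12 * (hh m r : ℝ) * NN m r) ^ D) ≤
        Real.exp (2 * Real.log n) * (Real.exp (200000 * Real.log n) *
          Real.exp ((D : ℝ) * (200001 * Real.log n))) := by
        have hh0 : (0 : ℝ) ≤ 12 * (hh m r : ℝ) := by positivity
        have hp0 : 0 ≤ (12 * (hh m r : ℝ) * NN m r) ^ D :=
          pow_nonneg (mul_nonneg hh0 hNpos.le) D
        refine mul_le_mul h5 ?_ (mul_nonneg hNpos.le hp0) (Real.exp_pos _).le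
        exact mul_le_mul hN.le h4 hp0 (Real.exp_pos _).le
    _ = Real.exp (2 * Real.log n + (200000 * Real.log n + (D : ℝ) * (200001 * Real.log n))) := by
        rw [Real.exp_add, Real.exp_add]
    _ ≤ Real.exp (200002 * ((D : ℝ) + 1) * Real.log n) := by
        apply Real.exp_le_exp.mpr
        have h8 : 0 ≤ (D : ℝ) * Real.log n := mul_nonneg (Nat.cast_nonneg _) hL
        nlinarith

end Aux_par1

theorem p_par1 : S_fac → S_par1 := by
  rintro ⟨C0, hfac⟩
  refine ⟨C0 + 10 ^ 10, ?_⟩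
  intro m r D hm hr hC ρ hρ hρm t ht1 ht2 htm
  have hmC : C0 ≤ m := by omega
  have hm10 : 10 ^ 10 ≤ m := by omega
  have hm' : (10 : ℝ) ^ 10 ≤ m := by exact_mod_cast hm10
  have hr' : (1 : ℝ) ≤ r := by exact_mod_cast hr
  have hmn : (m : ℝ) ≤ (m : ℝ) * r := by nlinarith
  have hX := Aux_par1.baseX m r D t hm10 hr htm
  have hlog3 := Aux_par1.log3m m hm'
  set n : ℝ := (m : ℝ) * r with hn
  have hn0 : 0 < n := by linarith
  have hL : 0 ≤ Real.log n := Real.log_nonneg (by linarith)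
  have hDL : (10 : ℝ) ^ 10 * (((D : ℝ) + 1) * Real.log n) ≤ r := by
    have h1 : 0 ≤ (C0 : ℝ) * (((D : ℝ) + 1) * Real.log n) := by positivity
    push_cast at hC
    nlinarith
  obtain ⟨k, hk⟩ : ∃ k, k = m - t := ⟨_, rfl⟩
  have hkm : k ≤ m := by omega
  have hkt : t + k = m := by omega
  have hfk := (hfac m k hmC hkm ρ hρ hρm).2.1 (by omega) (by omega)
  rw [← hk]
  have hNpos : 0 < NN m r := by unfold NN; positivity
  -- the power `t`
  have hXt : (16 * NN m r * (12 * (hh m r : ℝ) * NN m r) ^ D * (t : ℝ)) ^ t ≤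
      Real.exp (0.0001 * n) := by
    calc (16 * NN m r * (12 * (hh m r : ℝ) * NN m r) ^ D * (t : ℝ)) ^ t ≤
          Real.exp (200002 * ((D : ℝ) + 1) * Real.log n) ^ t :=
          pow_le_pow_left₀ (by positivity) hX t
      _ = Real.exp ((t : ℝ) * (200002 * ((D : ℝ) + 1) * Real.log n)) := by
          rw [Real.exp_nat_mul]
      _ ≤ Real.exp (0.0001 * n) := by
          apply Real.exp_le_exp.mpr
          have ht' : (t : ℝ) ≤ m := by exact_mod_cast htm
          have h1 : 0 ≤ ((D : ℝ) + 1) * Real.log n := by positivity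
          have h2 : (t : ℝ) * (200002 * ((D : ℝ) + 1) * Real.log n) ≤
              (m : ℝ) * (200002 * ((D : ℝ) + 1) * Real.log n) :=
            mul_le_mul_of_nonneg_right ht' (by positivity)
          have h3 : (m : ℝ) * (200002 * ((D : ℝ) + 1) * Real.log n) ≤
              (m : ℝ) * (0.0001 * r) := by
            refine mul_le_mul_of_nonneg_left ?_ (by positivity)
            nlinarith
          calc (t : ℝ) * (200002 * ((D : ℝ) + 1) * Real.log n) ≤ (m : ℝ) * (0.0001 * r) :=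
                h2.trans h3
            _ = 0.0001 * n := by rw [hn]; ring
  have h3r : (3 * (m : ℝ)) ^ r ≤ Real.exp (0.0001 * n) := by
    have h1 : (3 * (m : ℝ)) = Real.exp (Real.log (3 * m)) := (Real.exp_log (by linarith)).symm
    rw [h1, ← Real.exp_nat_mul]
    apply Real.exp_le_exp.mpr
    rw [hn]
    nlinarith
  have h2r : ((2 : ℝ) ^ (-(0.442 * (m : ℝ)))) ^ r = Real.exp (-(0.442 * n) * Real.log 2) := by
    rw [Real.rpow_def_of_pos (by norm_num), ← Real.exp_nat_mul, hn]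
    congr 1
    ring
  have hdd : Real.exp (0.0001 * n) * (Real.exp (0.0001 * n) *
      Real.exp (-(0.442 * n) * Real.log 2)) ≤ dd m r := by
    rw [dd, Real.rpow_def_of_pos (by norm_num), ← Real.exp_add, ← Real.exp_add]
    apply Real.exp_le_exp.mpr
    have h1 : (0.6931471803 : ℝ) < Real.log 2 := Real.log_two_gt_d9
    rw [← hn]
    nlinarith
  -- assemble
  have hρt : (ρ ^ r) ^ t * (ρ ^ k) ^ r = (m.factorial : ℝ) ^ r := by
    rw [← hρm, ← pow_mul, ← pow_mul, ← pow_mul, ← pow_add, ← hkt]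
    congr 1
    ring
  have e1 : cc ρ r (NN m r) (hh m r) D ^ t * ((t : ℝ) ^ t * ((k).factorial : ℝ) ^ r) =
      (ρ ^ r) ^ t * (16 * NN m r * (12 * (hh m r : ℝ) * NN m r) ^ D * (t : ℝ)) ^ t *
        (k.factorial : ℝ) ^ r := by
    have e2 : cc ρ r (NN m r) (hh m r) D =
        ρ ^ r * (16 * NN m r * (12 * (hh m r : ℝ) * NN m r) ^ D) := by
      rw [cc]; ring
    rw [e2, mul_pow, mul_pow _ (t : ℝ) t]
    ring
  rw [e1]
  have hkr : (k.factorial : ℝ) ^ r ≤ (3 * (m : ℝ)) ^ r * (ρ ^ k) ^ r *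
      ((2 : ℝ) ^ (-(0.442 * (m : ℝ)))) ^ r := by
    rw [← mul_pow, ← mul_pow]
    exact pow_le_pow_left₀ (by positivity) hfk r
  calc (ρ ^ r) ^ t * (16 * NN m r * (12 * (hh m r : ℝ) * NN m r) ^ D * (t : ℝ)) ^ t *
        (k.factorial : ℝ) ^ r ≤ (ρ ^ r) ^ t * Real.exp (0.0001 * n) *
        ((3 * (m : ℝ)) ^ r * (ρ ^ k) ^ r * ((2 : ℝ) ^ (-(0.442 * (m : ℝ)))) ^ r) := by
        refine mul_le_mul ?_ hkr (by positivity) (by positivity)
        exact mul_le_mul_of_nonneg_left hXt (by positivity)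
    _ = ((ρ ^ r) ^ t * (ρ ^ k) ^ r) * (Real.exp (0.0001 * n) * ((3 * (m : ℝ)) ^ r *
        Real.exp (-(0.442 * n) * Real.log 2))) := by
        rw [h2r]; ring
    _ ≤ (m.factorial : ℝ) ^ r * dd m r := by
        rw [hρt]
        refine mul_le_mul_of_nonneg_left ?_ (by positivity)
        refine le_trans ?_ hdd
        refine mul_le_mul_of_nonneg_left ?_ (Real.exp_pos _).le
        exact mul_le_mul_of_nonneg_right h3r (Real.exp_pos _).le

end Pool.Agent.W952.SC
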