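import Pool.Agent.W952.SC.Stm

set_option autoImplicit false

namespace Pool.Agent.W952.SC

namespace Aux_par2

theorem two_pow_le (x : ℝ) (n : ℕ) (hx : x = n) (S : ℝ) (hx0 : 0 ≤ x)
    (hS : S ≤ (2 : ℝ) ^ (0.4405 * x)) : S ≤ 2 ^ n := by
  refine hS.trans ?_
  rw [← Real.rpow_natCast, ← hx]
  exact Real.rpow_le_rpow_of_exponent_le (by norm_num) (by linarith)

theorem partA (m h : ℕ) (x S : ℝ) (hx : 10 ^ 12 ≤ x) (hm : (m : ℝ) * 10 ^ 6 ≤ x)
    (hh : (h : ℝ) ≤ x / 10000 + 1) (hS : S ≤ (2 : ℝ) ^ (0.4405 * x)) :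
    S * 2 ^ m * (6 ^ h * (2 : ℝ) ^ (-(0.4415 * x))) ≤ 1 / 4 := by
  have h6 : (6 : ℝ) ^ h ≤ (2 : ℝ) ^ ((3 * h : ℕ) : ℝ) := by
    rw [Real.rpow_natCast, pow_mul]
    exact pow_le_pow_left₀ (by norm_num) (by norm_num) h
  have h2 : (2 : ℝ) ^ m = (2 : ℝ) ^ (m : ℝ) := (Real.rpow_natCast 2 m).symm
  have hd : 0 < (2 : ℝ) ^ (-(0.4415 * x)) := Real.rpow_pos_of_pos (by norm_num) _
  calc S * 2 ^ m * (6 ^ h * (2 : ℝ) ^ (-(0.4415 * x)))
      ≤ (2 : ℝ) ^ (0.4405 * x) * (2 : ℝ) ^ (m : ℝ) *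
          ((2 : ℝ) ^ ((3 * h : ℕ) : ℝ) * (2 : ℝ) ^ (-(0.4415 * x))) := by
        rw [h2]
        gcongr
    _ = (2 : ℝ) ^ (0.4405 * x + m + (((3 * h : ℕ) : ℝ) + -(0.4415 * x))) := by
        rw [Real.rpow_add (by norm_num), Real.rpow_add (by norm_num), Real.rpow_add (by norm_num)]
    _ ≤ (2 : ℝ) ^ (-2 : ℝ) := by
        refine Real.rpow_le_rpow_of_exponent_le (by norm_num) ?_
        push_cast
        linarith
    _ = 1 / 4 := by
        rw [Real.rpow_neg (by norm_num)]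
        norm_num

theorem partB (m r D h n L : ℕ) (x ρ S J N q : ℝ) (hx : 10 ^ 6 ≤ x) (hxn : x = (n : ℝ))
    (hn : n = m * r) (hr1 : 1 ≤ r) (hm8 : 2 * L ≤ m) (hCD : 200001 * (D + 1) ≤ r)
    (hh1 : (h : ℝ) ≤ x / 10000 + 1) (hh2 : n ≤ 10000 * h)
    (hρ1 : 1 ≤ ρ) (hρm : ρ ≤ m) (hmx : (m : ℝ) ≤ x) (hDx : 1 + (D : ℝ) ≤ x)
    (hq : q = x ^ 199999) (hN : N = q * x)
    (hS0 : 0 ≤ S) (hS : S ≤ 2 ^ n) (hJ0 : 0 ≤ J) (hJ : J ≤ 2 * 2 ^ n) :
    (S * (J + S + 1)) ^ 2 * 2 ^ m * (2 * (8 * ρ ^ r) * N * (12 * h * N) ^ D) ^ (2 * L) *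
      ((12 * (1 / N)) ^ (h + 1) + D * (1 / N) ^ (h + 1)) ≤ 1 / 4 := by
  have hx1 : (1 : ℝ) ≤ x := by linarith
  have hx0 : (0 : ℝ) < x := by linarith
  have hq0 : 0 < q := by rw [hq]; positivity
  have hN0 : 0 < N := by rw [hN]; positivity
  have hρ0 : 0 < ρ := by linarith
  -- S part
  have hSJ : (S * (J + S + 1)) ^ 2 ≤ x ^ (n + 1) := by
    have h1 : J + S + 1 ≤ 4 * 2 ^ n := by
      have : (1 : ℝ) ≤ 2 ^ n := one_le_pow₀ (by norm_num)
      linarith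
    have h2 : S * (J + S + 1) ≤ 2 ^ n * (4 * 2 ^ n) :=
      mul_le_mul hS h1 (by linarith) (by positivity)
    have h3 : (S * (J + S + 1)) ^ 2 ≤ (2 ^ n * (4 * 2 ^ n)) ^ 2 :=
      pow_le_pow_left₀ (by positivity) h2 2
    have h4 : ((2 : ℝ) ^ n * (4 * 2 ^ n)) ^ 2 = 16 ^ (n + 1) := by
      have : (16 : ℝ) = 2 ^ 4 := by norm_num
      rw [this, ← pow_mul]
      have h5 : (4 : ℝ) = 2 ^ 2 := by norm_num
      rw [h5, ← pow_add, ← pow_add, ← pow_mul]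
      congr 1
      ring
    rw [h4] at h3
    exact h3.trans (pow_le_pow_left₀ (by norm_num) (by linarith) _)
  have hmn : m ≤ n := by rw [hn]; exact Nat.le_mul_of_pos_right _ hr1
  have h2m : (2 : ℝ) ^ m ≤ x ^ n :=
    (pow_le_pow_left₀ (by norm_num) (by linarith) _).trans (pow_le_pow_right₀ hx1 hmn)
  -- cc
  have h12 : 12 * (h : ℝ) ≤ x := by linarith
  have hNx : N = x ^ 200000 := by
    rw [hN, hq, ← pow_succ]
  set B : ℝ := x * x ^ r * x ^ 200000 * (x * x ^ 200000) ^ D with hB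
  have hcc : 2 * (8 * ρ ^ r) * N * (12 * h * N) ^ D ≤ B := by
    have h1 : ρ ^ r ≤ x ^ r := pow_le_pow_left₀ hρ0.le (hρm.trans hmx) r
    have h2 : 2 * (8 * ρ ^ r) ≤ x * x ^ r := by
      have : (0 : ℝ) ≤ x ^ r := by positivity
      nlinarith
    have h3 : 12 * h * N ≤ x * x ^ 200000 := by
      rw [← hNx]
      exact mul_le_mul_of_nonneg_right h12 hN0.le
    have h4 : (12 * h * N) ^ D ≤ (x * x ^ 200000) ^ D :=
      pow_le_pow_left₀ (by positivity) h3 D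
    rw [hB, ← hNx]
    rw [← hNx] at h4
    have h5 : 2 * (8 * ρ ^ r) * N ≤ x * x ^ r * N := mul_le_mul_of_nonneg_right h2 hN0.le
    exact mul_le_mul h5 h4 (by positivity) (by positivity)
  have hBe : B = x ^ (1 + r + 200000 + 200001 * D) := by
    have h1 : x * x ^ 200000 = x ^ 200001 := (pow_succ' x 200000).symm
    rw [hB, h1, ← pow_mul, pow_add, pow_add, pow_add, pow_one]
  have hB1 : 1 ≤ B := by rw [hBe]; exact one_le_pow₀ hx1
  have hcc0 : 0 ≤ 2 * (8 * ρ ^ r) * N * (12 * h * N) ^ D := by positivity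
  have hccL : (2 * (8 * ρ ^ r) * N * (12 * h * N) ^ D) ^ (2 * L) ≤ x ^ (3 * n) := by
    refine (pow_le_pow_left₀ hcc0 hcc _).trans ((pow_le_pow_right₀ hB1 hm8).trans ?_)
    rw [hBe, ← pow_mul]
    refine pow_le_pow_right₀ hx1 ?_
    have h1 : 1 + r + 200000 + 200001 * D ≤ 3 * r := by omega
    calc (1 + r + 200000 + 200001 * D) * m ≤ (3 * r) * m := Nat.mul_le_mul_right m h1
      _ = 3 * n := by rw [hn]; ring
  -- last factor
  have hl1 : 12 * (1 / N) ≤ 1 / q := by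
    rw [hN, mul_one_div, div_le_div_iff₀ (by positivity) hq0]
    nlinarith
  have hl2 : 1 / N ≤ 1 / q := by
    rw [hN]
    refine one_div_le_one_div_of_le hq0 ?_
    nlinarith
  have hlast : (12 * (1 / N)) ^ (h + 1) + D * (1 / N) ^ (h + 1) ≤ x * (1 / q) ^ (h + 1) := by
    have h1 : (12 * (1 / N)) ^ (h + 1) ≤ (1 / q) ^ (h + 1) :=
      pow_le_pow_left₀ (by positivity) hl1 _
    have h2 : (1 / N) ^ (h + 1) ≤ (1 / q) ^ (h + 1) :=
      pow_le_pow_left₀ (by positivity) hl2 _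
    have h3 : (D : ℝ) * (1 / N) ^ (h + 1) ≤ D * (1 / q) ^ (h + 1) :=
      mul_le_mul_of_nonneg_left h2 (Nat.cast_nonneg _)
    have h4 : (1 + (D : ℝ)) * (1 / q) ^ (h + 1) ≤ x * (1 / q) ^ (h + 1) :=
      mul_le_mul_of_nonneg_right hDx (by positivity)
    linarith
  have hl0 : 0 ≤ (12 * (1 / N)) ^ (h + 1) + D * (1 / N) ^ (h + 1) := by positivity
  have hqe : (1 / q) ^ (h + 1) = 1 / x ^ (199999 * (h + 1)) := by
    rw [hq, one_div, one_div, inv_pow, ← pow_mul]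
  calc (S * (J + S + 1)) ^ 2 * 2 ^ m * (2 * (8 * ρ ^ r) * N * (12 * h * N) ^ D) ^ (2 * L) *
      ((12 * (1 / N)) ^ (h + 1) + D * (1 / N) ^ (h + 1))
      ≤ x ^ (n + 1) * x ^ n * x ^ (3 * n) * (x * (1 / q) ^ (h + 1)) := by
        refine mul_le_mul (mul_le_mul (mul_le_mul hSJ h2m (by positivity) (by positivity)) hccL
          (by positivity) (by positivity)) hlast hl0 (by positivity)
    _ = x ^ (5 * n + 2) / x ^ (199999 * (h + 1)) := by
        rw [hqe, ← pow_add, ← pow_add, ← mul_assoc, ← pow_succ, mul_one_div]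
        congr 2
        ring
    _ ≤ 1 / 4 := by
        rw [div_le_div_iff₀ (by positivity) (by norm_num), one_mul]
        have h1 : x ^ (5 * n + 2) * 4 ≤ x ^ (5 * n + 2) * x :=
          mul_le_mul_of_nonneg_left (by linarith) (by positivity)
        refine h1.trans ?_
        rw [← pow_succ]
        exact pow_le_pow_right₀ hx1 (by omega)

end Aux_par2

open Aux_par2

theorem p_par2 : S_par2 := by
  refine ⟨1000000, ?_⟩
  intro m r D hm hr hC ρ hρ1 hρm S J hS hJ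
  have hmR : (1000000 : ℝ) ≤ m := by exact_mod_cast hm
  have hrR : (1 : ℝ) ≤ r := by exact_mod_cast hr
  have hx6 : (1000000 : ℝ) ≤ (m : ℝ) * r := by nlinarith
  have hlog : 1 ≤ Real.log ((m : ℝ) * r) := by
    rw [Real.le_log_iff_exp_le (by linarith)]
    have := Real.exp_one_lt_d9
    linarith
  have hD0 : (0 : ℝ) ≤ D := Nat.cast_nonneg _
  have hCD : (1000000 : ℝ) * (D + 1) ≤ r := by
    have h1 : (1000000 : ℝ) * (D + 1) * 1 ≤ ((1000000 : ℕ) : ℝ) * (D + 1) *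
        Real.log ((m : ℝ) * r) := by
      push_cast
      exact mul_le_mul_of_nonneg_left hlog (by positivity)
    linarith
  have hCDn : 1000000 * (D + 1) ≤ r := by exact_mod_cast hCD
  have hr6 : (1000000 : ℝ) ≤ r := by nlinarith
  have hx12 : (10 : ℝ) ^ 12 ≤ (m : ℝ) * r := by nlinarith
  have hmx6 : (m : ℝ) * 10 ^ 6 ≤ (m : ℝ) * r := by
    refine mul_le_mul_of_nonneg_left ?_ (Nat.cast_nonneg _)
    linarith
  have hh1 : ((hh m r : ℕ) : ℝ) ≤ (m : ℝ) * r / 10000 + 1 := by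
    unfold hh
    push_cast
    have : (((m * r / 10000 : ℕ)) : ℝ) ≤ ((m * r : ℕ) : ℝ) / ((10000 : ℕ) : ℝ) := Nat.cast_div_le
    push_cast at this
    linarith
  refine ⟨?_, ?_⟩
  · exact partA m (hh m r) ((m : ℝ) * r) S hx12 hmx6 hh1 hS
  · have hxn : (m : ℝ) * r = ((m * r : ℕ) : ℝ) := by push_cast; ring
    have hSn := two_pow_le ((m : ℝ) * r) (m * r) hxn S (by linarith) hS
    have := partB m r D (hh m r) (m * r) ((2 * m + 4) / 5) ((m : ℝ) * r) ρ S J (NN m r)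
      (((m : ℝ) * r) ^ 199999) (by linarith) hxn rfl hr (by omega) (by omega) hh1
      (by unfold hh; omega) hρ1 hρm (by nlinarith) (by nlinarith) rfl
      (by unfold NN; rw [← pow_succ]) (Nat.cast_nonneg _) hSn (Nat.cast_nonneg _) hJ
    unfold cc
    push_cast
    exact this

end Pool.Agent.W952.SC
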